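import Mathlib
import Pool.Agent.Helper23_LAP.Stmts
import Pool.Agent.Helper23_LAP.Basic

/-!
# LAP: the level step of the bipartite system
-/

set_option autoImplicit false

namespace Pool.Agent.LAP.H38

open scoped Classical

theorem lvl (hS : SNKStmt) (hL : LABStmt) (hM : MATStmt) (hC : COIStmt) : LVLStmt := by
  intro k L q D δ η r T Rr ζ P P' δ' η' r' T' R' hp hn α β _ _ E R X Y F hE hR hst hF
  obtain ⟨X', Y', hsnk⟩ := hS k L q D δ η r T Rr ζ P P' hp α β E R X Y hE hst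
  obtain ⟨smp, hlab⟩ := hL k L q D δ η r T Rr ζ P P' hp α β E R X Y X' Y' F hE hst hsnk hF
  choose M hMs hMp hMF hMX hMY using hM α β E R L q D X Y X' Y' F smp hR hlab
  refine ⟨R \ allS smp, M, Finset.sdiff_subset, fun c => ⟨hMp c, hMF c, ?_, ?_⟩, ?_, ?_, ?_, ?_⟩
  · rw [Finset.disjoint_left]
    intro a ha ha'
    refine (Finset.mem_sdiff.1 ha').2 ?_
    exact Finset.mem_biUnion.2 ⟨c, Finset.mem_univ _, hMs c ha⟩
  · intro a ha
    exact hlab.sub c a (hMs c ha)
  · intro c d hcd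
    exact Disjoint.mono (hMs c) (hMs d) (hlab.dj c d hcd)
  · intro x
    refine le_trans ?_ (hsnk.k5.1 x)
    refine Nat.cast_le.2 (Finset.card_le_card ?_)
    intro c hc
    rw [Finset.mem_filter] at hc ⊢
    refine ⟨hc.1, ?_⟩
    by_contra hx
    exact hc.2.2 (hMX c (Finset.mem_sdiff.2 ⟨hc.2.1, hx⟩))
  · intro y
    refine le_trans ?_ (hsnk.k5.2 y)
    refine Nat.cast_le.2 (Finset.card_le_card ?_)
    intro c hc
    rw [Finset.mem_filter] at hc ⊢
    refine ⟨hc.1, ?_⟩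
    by_contra hx
    exact hc.2.2 (hMY c (Finset.mem_sdiff.2 ⟨hc.2.1, hx⟩))
  · intro rep sg hco
    exact hC k L q D δ η r T Rr ζ P P' δ' η' r' T' R' hp hn α β E R X Y X' Y' F smp M rep sg hE hR
      hst hsnk hlab hMs hMp hMX hMY hco

end Pool.Agent.LAP.H38
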