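import Mathlib
import Pool.Agent.Helper23_LAP.Stmts
import Pool.Agent.Helper23_LAP.Basic

/-!
# LAP: one level for digraphs
-/

set_option autoImplicit false

namespace Pool.Agent.LAP.H38

open scoped Classical

variable {V : Type}

theorem cu_sub {q : ℕ} (M : Fin q → Finset (V × V)) (rep : Fin q → V × V → V × V)
    (sg : Fin q → V × V → Bool) (ω : Fin q × (V × V) → Bool) (c : Fin q) :
    cu M rep sg ω c ⊆ M c := Finset.filter_subset _ _

/-- The union of two partial injections with disjoint tails and disjoint heads. -/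
theorem pi_union {K M : Finset (V × V)} (hK : PI K) (hM : PI M)
    (hd : Disjoint (dom M) (dom K)) (hr : Disjoint (ran M) (ran K)) : PI (K ∪ M) := by
  rw [Finset.disjoint_left] at hd hr
  refine ⟨fun x y y' h h' => ?_, fun x x' y h h' => ?_⟩
  · rw [Finset.mem_union] at h h'
    rcases h with h | h <;> rcases h' with h' | h'
    · exact hK.1 _ _ _ h h'
    · exact absurd (mem_dom.2 ⟨_, h⟩) (hd (mem_dom.2 ⟨_, h'⟩))
    · exact absurd (mem_dom.2 ⟨_, h'⟩) (hd (mem_dom.2 ⟨_, h⟩))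
    · exact hM.1 _ _ _ h h'
  · rw [Finset.mem_union] at h h'
    rcases h with h | h <;> rcases h' with h' | h'
    · exact hK.2 _ _ _ h h'
    · exact absurd (mem_ran.2 ⟨_, h⟩) (hr (mem_ran.2 ⟨_, h'⟩))
    · exact absurd (mem_ran.2 ⟨_, h'⟩) (hr (mem_ran.2 ⟨_, h⟩))
    · exact hM.2 _ _ _ h h'

theorem pi_mono {K M : Finset (V × V)} (hK : PI K) (h : M ⊆ K) : PI M :=
  ⟨fun _ _ _ h1 h2 => hK.1 _ _ _ (h h1) (h h2), fun _ _ _ h1 h2 => hK.2 _ _ _ (h h1) (h h2)⟩

theorem stp (hL : LVLStmt) (hF : FRBStmt) (hP : PAIStmt) (hPrm : PRMStmt) (hPrn : PRNStmt) :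
    STPStmt := by
  intro V _ E R k L q i K X Y hL4 hk hq hi hD hE hR h
  have hprm := hPrm k L q i hL4 hk hq hi hD
  have hprn := hPrn k L q i hL4 hk hq hi hD
  have hd : pD k i / 2 = pD k (i + 1) := by
    unfold pD
    rw [pow_succ, div_div]
  let F : Fin q → Finset (V × V) := fun c => Finset.univ.filter fun a : V × V =>
    (a.1 ∈ X c ∧ a.2 ∈ Y c) ∧ Relation.ReflTransGen (fun u v => (u, v) ∈ K c) a.2 a.1
  have hFp : ∀ c, PI (F c) := fun c =>
    hF V (K c) (X c) (Y c) (h.pi c) (h.ac c) (h.dX c) (h.dY c)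
  obtain ⟨R₁, M, hR₁, hM, hMd, hlx, hly, hcoin⟩ := hL k L q _ _ _ _ _ _ _ _ _ _ _ _ _ _
    hprm hprn V V E R X Y F hE hR h.st hFp
  have hdomM : ∀ c, dom (M c) ⊆ X c := by
    intro c x hx
    obtain ⟨y, hy⟩ := mem_dom.1 hx
    exact ((hM c).2.2.2 _ hy).2.1
  have hranM : ∀ c, ran (M c) ⊆ Y c := by
    intro c x hx
    obtain ⟨y, hy⟩ := mem_ran.1 hx
    exact ((hM c).2.2.2 _ hy).2.2
  have hMR : ∀ c, M c ⊆ R := fun c a ha => ((hM c).2.2.2 _ ha).1
  have hdd : ∀ c, Disjoint (dom (M c)) (dom (K c)) := fun c =>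
    Disjoint.mono_left (hdomM c) (h.dX c)
  have hrr : ∀ c, Disjoint (ran (M c)) (ran (K c)) := fun c =>
    Disjoint.mono_left (hranM c) (h.dY c)
  have hpai : ∀ c, ∃ (rep : V × V → V × V) (sg : V × V → Bool), Coin (M c) rep sg ∧
      ∀ ω : V × V → Bool, Acy ((K c ∪ M c) \ cut (M c) rep sg ω) := by
    intro c
    refine hP V (K c) (M c) (h.pi c) (h.ac c) (hM c).1 (hdd c) (hrr c) ?_
    intro a ha hrt
    refine Finset.disjoint_left.1 (hM c).2.1 ha ?_
    exact Finset.mem_filter.2 ⟨Finset.mem_univ _, ((hM c).2.2.2 _ ha).2, hrt⟩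
  choose rep sg hco hac using hpai
  obtain ⟨ω, hω⟩ := hcoin rep sg hco
  have hcs : ∀ c, cu M rep sg ω c ⊆ M c := fun c => cu_sub M rep sg ω c
  have hpu : ∀ c, PI (K c ∪ M c) := fun c => pi_union (h.pi c) (hM c).1 (hdd c) (hrr c)
  have hKM : ∀ c a, a ∈ K c → ∀ d, a ∉ M d := fun c a ha d ha' =>
    Finset.disjoint_left.1 (h.dR c) ha (hMR d ha')
  refine ⟨R₁, fun c => (K c ∪ M c) \ cu M rep sg ω c, fun c => dom (cu M rep sg ω c),
    fun c => ran (cu M rep sg ω c), hR₁.trans hR, ?_⟩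
  refine { st := ?_, sub := ?_, pi := ?_, ac := ?_, dj := ?_, dR := ?_, dX := ?_, dY := ?_,
           lx := ?_, ly := ?_ }
  · rw [← hd]
    exact hω
  · intro c a ha
    rcases Finset.mem_union.1 (Finset.mem_sdiff.1 ha).1 with h1 | h1
    · exact h.sub c h1
    · exact hR (hMR c h1)
  · intro c
    exact pi_mono (hpu c) Finset.sdiff_subset
  · intro c
    exact hac c (fun z => ω (c, z))
  · intro c d hcd
    rw [Finset.disjoint_left]
    intro a ha ha'
    rcases Finset.mem_union.1 (Finset.mem_sdiff.1 ha).1 with h1 | h1 <;>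
      rcases Finset.mem_union.1 (Finset.mem_sdiff.1 ha').1 with h2 | h2
    · exact Finset.disjoint_left.1 (h.dj c d hcd) h1 h2
    · exact hKM c a h1 d h2
    · exact hKM d a h2 c h1
    · exact Finset.disjoint_left.1 (hMd c d hcd) h1 h2
  · intro c
    rw [Finset.disjoint_left]
    intro a ha ha'
    rcases Finset.mem_union.1 (Finset.mem_sdiff.1 ha).1 with h1 | h1
    · exact Finset.disjoint_left.1 (h.dR c) h1 (hR₁ ha')
    · exact Finset.disjoint_left.1 (hM c).2.2.1 h1 ha'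
  · intro c
    rw [Finset.disjoint_left]
    intro x hx hx'
    obtain ⟨y, hy⟩ := mem_dom.1 hx
    obtain ⟨y', hy'⟩ := mem_dom.1 hx'
    have h1 := Finset.mem_sdiff.1 hy'
    have h2 : y = y' := (hpu c).1 x y y' (Finset.mem_union_right _ (hcs c hy)) h1.1
    exact h1.2 (h2 ▸ hy)
  · intro c
    rw [Finset.disjoint_left]
    intro x hx hx'
    obtain ⟨y, hy⟩ := mem_ran.1 hx
    obtain ⟨y', hy'⟩ := mem_ran.1 hx'
    have h1 := Finset.mem_sdiff.1 hy'
    have h2 : y = y' := (hpu c).2 y y' x (Finset.mem_union_right _ (hcs c hy)) h1.1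
    exact h1.2 (h2 ▸ hy)
  · intro v
    have h1 : (Finset.univ.filter fun c => v ∉ dom ((K c ∪ M c) \ cu M rep sg ω c) ∧
        v ∉ dom (cu M rep sg ω c)).card ≤
        (Finset.univ.filter fun c => v ∉ dom (K c) ∧ v ∉ X c).card +
        (Finset.univ.filter fun c => v ∈ X c ∧ v ∉ dom (M c)).card := by
      refine le_trans (Finset.card_le_card ?_) (Finset.card_union_le _ _)
      intro c hc
      rw [Finset.mem_filter] at hc
      rw [Finset.mem_union, Finset.mem_filter, Finset.mem_filter]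
      have hKd : v ∉ dom (K c) := by
        intro hv
        obtain ⟨y, hy⟩ := mem_dom.1 hv
        refine hc.2.1 (mem_dom.2 ⟨y, Finset.mem_sdiff.2 ⟨Finset.mem_union_left _ hy, ?_⟩⟩)
        intro hy'
        exact hKM c _ hy c (hcs c hy')
      have hMd' : v ∉ dom (M c) := by
        intro hv
        obtain ⟨y, hy⟩ := mem_dom.1 hv
        by_cases hy' : (v, y) ∈ cu M rep sg ω c
        · exact hc.2.2 (mem_dom.2 ⟨y, hy'⟩)
        · exact hc.2.1 (mem_dom.2 ⟨y, Finset.mem_sdiff.2 ⟨Finset.mem_union_right _ hy, hy'⟩⟩)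
      by_cases hvX : v ∈ X c
      · exact Or.inr ⟨Finset.mem_univ _, hvX, hMd'⟩
      · exact Or.inl ⟨Finset.mem_univ _, hKd, hvX⟩
    have h2 := h.lx v
    have h3 := hlx v
    have h4 : (((Finset.univ.filter fun c => v ∉ dom ((K c ∪ M c) \ cu M rep sg ω c) ∧
        v ∉ dom (cu M rep sg ω c)).card : ℕ) : ℝ) ≤
        ((Finset.univ.filter fun c => v ∉ dom (K c) ∧ v ∉ X c).card : ℕ) +
        ((Finset.univ.filter fun c => v ∈ X c ∧ v ∉ dom (M c)).card : ℕ) := by
      exact_mod_cast h1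
    refine h4.trans (le_trans (add_le_add h2 h3) (le_of_eq ?_))
    push_cast
    ring
  · intro v
    have h1 : (Finset.univ.filter fun c => v ∉ ran ((K c ∪ M c) \ cu M rep sg ω c) ∧
        v ∉ ran (cu M rep sg ω c)).card ≤
        (Finset.univ.filter fun c => v ∉ ran (K c) ∧ v ∉ Y c).card +
        (Finset.univ.filter fun c => v ∈ Y c ∧ v ∉ ran (M c)).card := by
      refine le_trans (Finset.card_le_card ?_) (Finset.card_union_le _ _)
      intro c hc
      rw [Finset.mem_filter] at hc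
      rw [Finset.mem_union, Finset.mem_filter, Finset.mem_filter]
      have hKd : v ∉ ran (K c) := by
        intro hv
        obtain ⟨y, hy⟩ := mem_ran.1 hv
        refine hc.2.1 (mem_ran.2 ⟨y, Finset.mem_sdiff.2 ⟨Finset.mem_union_left _ hy, ?_⟩⟩)
        intro hy'
        exact hKM c _ hy c (hcs c hy')
      have hMd' : v ∉ ran (M c) := by
        intro hv
        obtain ⟨y, hy⟩ := mem_ran.1 hv
        by_cases hy' : (y, v) ∈ cu M rep sg ω c
        · exact hc.2.2 (mem_ran.2 ⟨y, hy'⟩)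
        · exact hc.2.1 (mem_ran.2 ⟨y, Finset.mem_sdiff.2 ⟨Finset.mem_union_right _ hy, hy'⟩⟩)
      by_cases hvX : v ∈ Y c
      · exact Or.inr ⟨Finset.mem_univ _, hvX, hMd'⟩
      · exact Or.inl ⟨Finset.mem_univ _, hKd, hvX⟩
    have h2 := h.ly v
    have h3 := hly v
    have h4 : (((Finset.univ.filter fun c => v ∉ ran ((K c ∪ M c) \ cu M rep sg ω c) ∧
        v ∉ ran (cu M rep sg ω c)).card : ℕ) : ℝ) ≤
        ((Finset.univ.filter fun c => v ∉ ran (K c) ∧ v ∉ Y c).card : ℕ) +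
        ((Finset.univ.filter fun c => v ∈ Y c ∧ v ∉ ran (M c)).card : ℕ) := by
      exact_mod_cast h1
    refine h4.trans (le_trans (add_le_add h2 h3) (le_of_eq ?_))
    push_cast
    ring

end Pool.Agent.LAP.H38
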